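import Pool.Agent.H73.AW.Flat
import Pool.Agent.H27.AD.Poly

/-! Evolutions: unitarity, continuity, the exponential series, Duhamel. -/

namespace Pool.Agent.H73.AX

open Finset Matrix Pool.Agent.H73.QA Pool.Agent.H73.AD Pool.Agent.H73.AW

variable {n : ℕ} {Y : Type} [Fintype Y] [DecidableEq Y]

theorem evo_lin_apply (A : Op n Y) (u : Sp n Y) :
    lin A u = WithLp.toLp 2 (A *ᵥ (WithLp.ofLp u)) := rfl

theorem evo_lin_one (u : Sp n Y) : lin (1 : Op n Y) u = u := by
  rw [evo_lin_apply, one_mulVec]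

theorem evo_lin_mul (A B : Op n Y) (u : Sp n Y) : lin (A * B) u = lin A (lin B u) := by
  rw [evo_lin_apply, evo_lin_apply, evo_lin_apply, ← mulVec_mulVec]

/-- evaluation at `u` -/
noncomputable def evL (u : Sp n Y) : Op n Y →ₗ[ℂ] Sp n Y where
  toFun A := lin A u
  map_add' A B := by
    rw [evo_lin_apply, evo_lin_apply, evo_lin_apply, add_mulVec]
    rfl
  map_smul' c A := by
    rw [evo_lin_apply, evo_lin_apply, smul_mulVec]
    rfl

theorem evL_apply (u : Sp n Y) (A : Op n Y) : evL u A = lin A u := rfl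

theorem evo_lin_smul (c : ℂ) (A : Op n Y) (u : Sp n Y) : lin (c • A) u = c • lin A u :=
  (evL u).map_smul c A

theorem evo_lin_sub (A B : Op n Y) (u : Sp n Y) : lin (A - B) u = lin A u - lin B u :=
  (evL u).map_sub A B

theorem evL_continuous (u : Sp n Y) : Continuous (evL u) :=
  LinearMap.continuous_of_finiteDimensional _

theorem norm_lin_sq (A : Op n Y) (u : Sp n Y) :
    ‖lin A u‖ ^ 2 = nsq (A *ᵥ (WithLp.ofLp u)) := by
  rw [evo_lin_apply, EuclideanSpace.norm_sq_eq]
  rfl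

theorem norm_of_unitary {W : Op n Y} (h : Wᴴ * W = 1) (u : Sp n Y) : ‖lin W u‖ = ‖u‖ := by
  have h1 : ((nsq (W *ᵥ (WithLp.ofLp u)) : ℝ) : ℂ) = ((nsq (WithLp.ofLp u) : ℝ) : ℂ) := by
    rw [← star_dot_self, ← star_dot_self, star_mulVec, dotProduct_mulVec, vecMul_vecMul, h,
      vecMul_one]
  have h2 : nsq (W *ᵥ (WithLp.ofLp u)) = nsq (WithLp.ofLp u) := by exact_mod_cast h1
  have h3 : ‖u‖ ^ 2 = nsq (WithLp.ofLp u) := by
    rw [EuclideanSpace.norm_sq_eq]
    rfl
  have h4 : ‖lin W u‖ ^ 2 = ‖u‖ ^ 2 := by rw [norm_lin_sq, h2, h3]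
  exact (sq_eq_sq₀ (norm_nonneg _) (norm_nonneg _)).1 h4

theorem exp_unitary {A : Op n Y} (hA : A.IsHermitian) (s : ℝ) :
    (NormedSpace.exp ((-Complex.I * s) • A))ᴴ * NormedSpace.exp ((-Complex.I * s) • A) = 1 := by
  rw [← Matrix.exp_conjTranspose]
  have h1 : ((-Complex.I * s) • A)ᴴ = -((-Complex.I * s) • A) := by
    rw [conjTranspose_smul, hA.eq, ← neg_smul]
    congr 1
    rw [star_mul', star_neg, Complex.star_def, Complex.conj_I, Complex.conj_ofReal]
    ring
  have h2 : Commute (-((-Complex.I * s) • A)) ((-Complex.I * s) • A) :=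
    Commute.neg_left (Commute.refl _)
  rw [h1, ← Matrix.exp_add_of_commute _ _ h2, neg_add_cancel, NormedSpace.exp_zero]

theorem exp_zero_smul (A : Op n Y) (v : Sp n Y) :
    lin (NormedSpace.exp ((-Complex.I * ((0 : ℝ) : ℂ)) • A)) v = v := by
  rw [Complex.ofReal_zero, mul_zero, zero_smul, NormedSpace.exp_zero, evo_lin_one]

theorem norm_exp_herm {A : Op n Y} (hA : A.IsHermitian) (s : ℝ) (v : Sp n Y) :
    ‖lin (NormedSpace.exp ((-Complex.I * s) • A)) v‖ = ‖v‖ :=
  norm_of_unitary (exp_unitary hA s) v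

set_option backward.isDefEq.respectTransparency false in
open scoped Matrix.Norms.Operator in
theorem exp_cont (A : Op n Y) :
    Continuous fun s : ℝ => NormedSpace.exp ((-Complex.I * (s : ℂ)) • A) := by
  have h1 : Continuous fun s : ℝ => (-Complex.I * (s : ℂ)) • A := by fun_prop
  exact (NormedSpace.exp_continuous (𝔸 := Op n Y)).comp h1

theorem continuous_exp (A : Op n Y) (v : Sp n Y) :
    Continuous fun s : ℝ => lin (NormedSpace.exp ((-Complex.I * s) • A)) v :=
  (evL_continuous v).comp (exp_cont A)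

set_option backward.isDefEq.respectTransparency false in
open scoped Matrix.Norms.Operator in
theorem exp_hasSum (A : Op n Y) :
    HasSum (fun j : ℕ => ((Nat.factorial j : ℂ)⁻¹) • A ^ j) (NormedSpace.exp A) :=
  NormedSpace.exp_series_hasSum_exp' (𝕂 := ℂ) A

theorem evo_lin_pow_succ (A : Op n Y) (j : ℕ) (u : Sp n Y) :
    lin (A ^ (j + 1)) u = lin A (lin (A ^ j) u) := by
  rw [pow_succ', evo_lin_mul]

/-- the exponential series applied to a vector -/
theorem exp_tendsto (A : Op n Y) (u : Sp n Y) :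
    Filter.Tendsto (fun J : ℕ => ∑ j ∈ range J,
      ((Nat.factorial j : ℂ)⁻¹ * (-Complex.I) ^ j) • lin (A ^ j) u) Filter.atTop
      (nhds (lin (NormedSpace.exp ((-Complex.I) • A)) u)) := by
  have h1 := (exp_hasSum ((-Complex.I) • A)).map (evL u) (evL_continuous u)
  have h2 := h1.tendsto_sum_nat
  have h3 : (fun J : ℕ => ∑ j ∈ range J,
      ((Nat.factorial j : ℂ)⁻¹ * (-Complex.I) ^ j) • lin (A ^ j) u) =
      fun J : ℕ => ∑ j ∈ range J,
        ((evL u) ∘ fun j : ℕ => ((Nat.factorial j : ℂ)⁻¹) • ((-Complex.I) • A) ^ j) j := by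
    funext J
    refine sum_congr rfl fun j _ => ?_
    rw [Function.comp_apply, smul_pow, smul_smul, map_smul, evL_apply]
  rw [h3]
  exact h2

set_option backward.isDefEq.respectTransparency false in
open scoped Matrix.Norms.Operator in
theorem exp_deriv (A : Op n Y) (s : ℝ) :
    HasDerivAt (fun s : ℝ => NormedSpace.exp ((-Complex.I * (s : ℂ)) • A))
      (NormedSpace.exp ((-Complex.I * (s : ℂ)) • A) * ((-Complex.I) • A)) s ∧
    HasDerivAt (fun s : ℝ => NormedSpace.exp ((-Complex.I * (s : ℂ)) • A))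
      (((-Complex.I) • A) * NormedSpace.exp ((-Complex.I * (s : ℂ)) • A)) s := by
  have h0 : ∀ s : ℝ, (-Complex.I * (s : ℂ)) • A = s • ((-Complex.I) • A) := by
    intro s
    rw [← Complex.coe_smul, smul_smul, mul_comm]
  simp only [h0]
  exact ⟨hasDerivAt_exp_smul_const (𝕂 := ℝ) ((-Complex.I) • A) s,
    hasDerivAt_exp_smul_const' (𝕂 := ℝ) ((-Complex.I) • A) s⟩

set_option backward.isDefEq.respectTransparency false in
open scoped Matrix.Norms.Operator in
/-- the interpolation of the Duhamel formula -/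
theorem duhamel_deriv (A B : Op n Y) (v : Sp n Y) (s : ℝ) :
    HasDerivAt (fun s : ℝ => lin (NormedSpace.exp ((-Complex.I * ((1 - s : ℝ) : ℂ)) • A) *
      NormedSpace.exp ((-Complex.I * (s : ℂ)) • B)) v)
      (lin (NormedSpace.exp ((-Complex.I * ((1 - s : ℝ) : ℂ)) • A))
        ((-Complex.I) • lin (B - A) (lin (NormedSpace.exp ((-Complex.I * (s : ℂ)) • B)) v))) s := by
  have h1 : HasDerivAt (fun s : ℝ => NormedSpace.exp ((-Complex.I * ((1 - s : ℝ) : ℂ)) • A))
      ((-1 : ℝ) • (NormedSpace.exp ((-Complex.I * ((1 - s : ℝ) : ℂ)) • A) *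
        ((-Complex.I) • A))) s :=
    HasDerivAt.scomp s (exp_deriv A (1 - s)).1 ((hasDerivAt_id s).const_sub 1)
  have h2 := h1.mul (exp_deriv B s).2
  have h3 := (((evL v).toContinuousLinearMap.restrictScalars ℝ).hasFDerivAt).comp_hasDerivAt s h2
  refine h3.congr_deriv ?_
  obtain ⟨P, hP⟩ : ∃ P : Op n Y, P = NormedSpace.exp ((-Complex.I * ((1 - s : ℝ) : ℂ)) • A) :=
    ⟨_, rfl⟩
  obtain ⟨Q, hQ⟩ : ∃ Q : Op n Y, Q = NormedSpace.exp ((-Complex.I * (s : ℂ)) • B) := ⟨_, rfl⟩
  rw [← hP, ← hQ]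
  change lin ((-1 : ℝ) • (P * ((-Complex.I) • A)) * Q + P * (((-Complex.I) • B) * Q)) v = _
  rw [← evo_lin_mul, ← evo_lin_smul, ← evo_lin_mul]
  congr 2
  rw [neg_one_smul]
  simp only [smul_mul_assoc, mul_smul_comm, neg_mul, sub_mul, smul_sub, mul_sub, mul_assoc]
  abel

/-- Duhamel -/
theorem exp_diff {A B : Op n Y} (hA : A.IsHermitian) (_hB : B.IsHermitian) (v : Sp n Y) :
    ‖lin (NormedSpace.exp ((-Complex.I) • B)) v - lin (NormedSpace.exp ((-Complex.I) • A)) v‖ ≤
      ∫ s in (0 : ℝ)..1, ‖lin (B - A) (lin (NormedSpace.exp ((-Complex.I * s) • B)) v)‖ := by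
  obtain ⟨F, hF⟩ : ∃ F : ℝ → Sp n Y, F = fun s : ℝ =>
      lin (NormedSpace.exp ((-Complex.I * ((1 - s : ℝ) : ℂ)) • A) *
        NormedSpace.exp ((-Complex.I * (s : ℂ)) • B)) v := ⟨_, rfl⟩
  obtain ⟨F', hF'⟩ : ∃ F' : ℝ → Sp n Y, F' = fun s : ℝ =>
      lin (NormedSpace.exp ((-Complex.I * ((1 - s : ℝ) : ℂ)) • A))
        ((-Complex.I) • lin (B - A) (lin (NormedSpace.exp ((-Complex.I * (s : ℂ)) • B)) v)) :=
    ⟨_, rfl⟩
  have h1 : ∀ s, HasDerivAt F (F' s) s := by
    intro s
    rw [hF, hF']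
    exact duhamel_deriv A B v s
  have hc : Continuous F' := by
    have h2 : F' = fun s : ℝ => (-Complex.I) •
        lin (NormedSpace.exp ((-Complex.I * ((1 - s : ℝ) : ℂ)) • A) * (B - A) *
          NormedSpace.exp ((-Complex.I * (s : ℂ)) • B)) v := by
      rw [hF']
      funext s
      rw [map_smul, ← evo_lin_mul, ← evo_lin_mul, mul_assoc]
    rw [h2]
    have h3 : Continuous fun s : ℝ => NormedSpace.exp ((-Complex.I * ((1 - s : ℝ) : ℂ)) • A) :=
      (exp_cont A).comp (continuous_const.sub continuous_id)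
    exact Continuous.const_smul ((evL_continuous v).comp
      ((h3.mul continuous_const).mul (exp_cont B))) (-Complex.I)
  have h4 := intervalIntegral.integral_eq_sub_of_hasDerivAt (a := 0) (b := 1) (fun s _ => h1 s)
    (hc.intervalIntegrable 0 1)
  have h5 : F 1 = lin (NormedSpace.exp ((-Complex.I) • B)) v := by
    rw [hF]
    simp only [sub_self, Complex.ofReal_zero, mul_zero, zero_smul, NormedSpace.exp_zero, one_mul,
      Complex.ofReal_one, mul_one]
  have h6 : F 0 = lin (NormedSpace.exp ((-Complex.I) • A)) v := by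
    rw [hF]
    simp only [sub_zero, Complex.ofReal_zero, mul_zero, zero_smul, NormedSpace.exp_zero, mul_one,
      Complex.ofReal_one]
  rw [h5, h6] at h4
  rw [← h4]
  refine (intervalIntegral.norm_integral_le_integral_norm zero_le_one).trans (le_of_eq ?_)
  refine intervalIntegral.integral_congr fun s _ => ?_
  rw [hF']
  beta_reduce
  rw [norm_exp_herm hA, norm_smul, norm_neg, Complex.norm_I, one_mul]

end Pool.Agent.H73.AX
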