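import Pool.Agent.H27.AX.Evo
import Pool.Agent.H73.AD.Good

/-! Closure of good families under limits; exponentials of good operators. -/

namespace Pool.Agent.H73.AX

open Finset Matrix Pool.Agent.H73.QA Pool.Agent.H73.AD Pool.Agent.H73.AW

variable {n : ℕ} {Y : Type} [Fintype Y] [DecidableEq Y]

section plus

variable {Z : Type} [Fintype Z] {E F E' : Type} [NormedAddCommGroup E] [NormedSpace ℂ E]
  [NormedAddCommGroup F] [NormedSpace ℂ F] [NormedAddCommGroup E'] [NormedSpace ℂ E'] {β : ℝ}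

/-- good with every larger constant -/
def GoodP (β c : ℝ) (v : Z → E) : Prop := ∀ c' > c, Good β c' v

def GoodOpP (β K : ℝ) (X : Z → E →ₗ[ℂ] F) : Prop :=
  0 ≤ K ∧ ∀ (c : ℝ) (v : Z → E), 0 ≤ c → GoodP β c v → GoodP β (K * c) (fun z => X z (v z))

theorem Good.plus {c : ℝ} {v : Z → E} (hβ : 0 ≤ β) (h : Good β c v) : GoodP β c v :=
  fun _ hc => h.mono hβ hc.le

theorem GoodP.mono {c c' : ℝ} {v : Z → E} (h : GoodP β c v) (hc : c ≤ c') : GoodP β c' v :=
  fun c'' hc'' => h c'' (hc.trans_lt hc'')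

theorem GoodOp.plus {K : ℝ} {X : Z → E →ₗ[ℂ] F} (hβ : 0 ≤ β) (h : GoodOp β K X) :
    GoodOpP β K X := by
  refine ⟨h.1, fun c v _ hv c' hc' => ?_⟩
  have hK := h.1
  have h1 : 0 < (c' - K * c) / (K + 1) := div_pos (sub_pos.2 hc') (by linarith)
  have h2 : (K + 1) * ((c' - K * c) / (K + 1)) = c' - K * c := by
    field_simp
  refine (h.2 _ v (hv (c + (c' - K * c) / (K + 1)) (by linarith))).mono hβ ?_
  nlinarith

theorem GoodOpP.mono {K K' : ℝ} {X : Z → E →ₗ[ℂ] F} (h : GoodOpP β K X) (hK : K ≤ K') :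
    GoodOpP β K' X :=
  ⟨h.1.trans hK, fun c v hc hv => GoodP.mono (h.2 c v hc hv) (mul_le_mul_of_nonneg_right hK hc)⟩

theorem GoodOpP.comp {K K' : ℝ} {X : Z → E →ₗ[ℂ] F} {X' : Z → F →ₗ[ℂ] E'}
    (h : GoodOpP β K X) (h' : GoodOpP β K' X') : GoodOpP β (K' * K) (fun z => X' z ∘ₗ X z) := by
  refine ⟨mul_nonneg h'.1 h.1, fun c v hc hv => ?_⟩
  rw [mul_assoc]
  exact h'.2 _ _ (mul_nonneg h.1 hc) (h.2 c v hc hv)

theorem GoodOpP.smul {K a : ℝ} {X : Z → E →ₗ[ℂ] F} (h : GoodOpP β K X) (ha : 0 ≤ a) (s : Z → ℂ)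
    (hs : ∀ z, ‖s z‖ ≤ a) : GoodOpP β (a * K) (fun z => s z • X z) := by
  rcases lt_or_ge β 0 with hβ | hβ
  · refine ⟨mul_nonneg ha h.1, fun c v hc hv => ?_⟩
    exfalso
    obtain ⟨v1, v2, h1, h2, h3⟩ := hv (c + 1) (by linarith)
    have h4 := l2_nonneg v2
    nlinarith
  · have h1 := GoodOpP.comp h (GoodOp.plus hβ (goodOp_scalar (β := β) (E := F) ha s hs))
    have h2 : (fun z => (s z • (LinearMap.id : F →ₗ[ℂ] F)) ∘ₗ X z) = fun z => s z • X z := by
      funext z
      ext u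
      simp
    rwa [h2] at h1

omit [NormedSpace ℂ E] in
theorem l2_tendsto {R : ℕ → Z → E} (hR : ∀ z, Filter.Tendsto (fun J => R J z) Filter.atTop
    (nhds 0)) : Filter.Tendsto (fun J => l2 (R J)) Filter.atTop (nhds 0) := by
  have h1 : Filter.Tendsto (fun J => ∑ z, ‖R J z‖ ^ 2) Filter.atTop (nhds (∑ _z : Z, (0 : ℝ))) := by
    refine tendsto_finsetSum _ fun z _ => ?_
    have h2 := ((hR z).norm).pow 2
    simpa using h2
  have h3 := (Real.continuous_sqrt.tendsto _).comp h1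
  simpa [Function.comp_def, l2] using h3

/-- powers of a good operator -/
theorem good_pow {K : ℝ} (A : Z → Op n Y) (hA : GoodOp β K fun z => lin (A z)) {c : ℝ}
    {v : Z → Sp n Y} (hv : Good β c v) (j : ℕ) :
    Good β (K ^ j * c) fun z => lin (A z ^ j) (v z) := by
  induction j with
  | zero =>
    have h1 : (fun z => lin (A z ^ 0) (v z)) = v := by
      funext z
      rw [pow_zero, evo_lin_one]
    rw [h1, pow_zero, one_mul]
    exact hv
  | succ j ih =>
    have h1 : (fun z => lin (A z ^ (j + 1)) (v z)) = fun z => lin (A z) (lin (A z ^ j) (v z)) := by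
      funext z
      rw [evo_lin_pow_succ]
    rw [h1, pow_succ', mul_assoc]
    exact hA.2 _ _ ih

/-- partial sums of the exponential series -/
theorem good_partial {K : ℝ} (hβ : 0 ≤ β) (A : Z → Op n Y)
    (hA : GoodOp β K fun z => lin (A z)) {c : ℝ} {v : Z → Sp n Y} (hv : Good β c v) (J : ℕ) :
    Good β (Real.exp K * c) fun z => ∑ j ∈ range J,
      ((Nat.factorial j : ℂ)⁻¹ * (-Complex.I) ^ j) • lin (A z ^ j) (v z) := by
  have h1 : Good β (∑ j ∈ range J, (Nat.factorial j : ℝ)⁻¹ * (K ^ j * c)) fun z =>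
      ∑ j ∈ range J, ((Nat.factorial j : ℂ)⁻¹ * (-Complex.I) ^ j) • lin (A z ^ j) (v z) := by
    refine Good.sum hβ _ fun j _ => ?_
    have h2 := goodOp_scalar (β := β) (E := Sp n Y) (Z := Z)
      (a := (Nat.factorial j : ℝ)⁻¹) (by positivity)
      (fun _ => (Nat.factorial j : ℂ)⁻¹ * (-Complex.I) ^ j) (fun _ => by
        rw [norm_mul, norm_inv, norm_pow, norm_neg, Complex.norm_I, one_pow, mul_one,
          Complex.norm_natCast])
    have h3 := h2.2 _ _ (good_pow A hA hv j)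
    simpa using h3
  refine h1.mono hβ ?_
  have h2 : ∑ j ∈ range J, (Nat.factorial j : ℝ)⁻¹ * (K ^ j * c) =
      (∑ j ∈ range J, K ^ j / (Nat.factorial j : ℝ)) * c := by
    rw [sum_mul]
    refine sum_congr rfl fun j _ => ?_
    rw [div_eq_mul_inv]
    ring
  rw [h2]
  exact mul_le_mul_of_nonneg_right (Real.sum_le_exp_of_nonneg hA.1 J) hv.nonneg

/-- exponentials: partial sums of the exponential series are good with constant at most
`exp K * c`, the remainder goes to the part which is small on average -/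
theorem goodOpP_exp {K : ℝ} (hβ : 0 < β) (A : Z → Op n Y)
    (hA : GoodOp β K fun z => lin (A z)) :
    GoodOpP β (Real.exp K) fun z => lin (NormedSpace.exp ((-Complex.I) • A z)) := by
  refine ⟨(Real.exp_pos K).le, fun c v hc hv c' hc' => ?_⟩
  have hK := Real.exp_pos K
  obtain ⟨c'', hc''⟩ : ∃ c'' : ℝ, c'' = c + (c' - Real.exp K * c) / (2 * Real.exp K) := ⟨_, rfl⟩
  have h1 : 0 < (c' - Real.exp K * c) / (2 * Real.exp K) :=
    div_pos (sub_pos.2 hc') (by positivity)
  have h2 : c < c'' := by linarith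
  have h3 : Real.exp K * c'' < c' := by
    have h4 : Real.exp K * ((c' - Real.exp K * c) / (2 * Real.exp K)) =
        (c' - Real.exp K * c) / 2 := by
      field_simp
    rw [hc'', mul_add, h4]
    linarith
  have h5 := hv c'' h2
  obtain ⟨R, hR⟩ : ∃ R : ℕ → Z → Sp n Y, R = fun J z =>
      lin (NormedSpace.exp ((-Complex.I) • A z)) (v z) - ∑ j ∈ range J,
        ((Nat.factorial j : ℂ)⁻¹ * (-Complex.I) ^ j) • lin (A z ^ j) (v z) := ⟨_, rfl⟩
  have h6 : Filter.Tendsto (fun J => l2 (R J)) Filter.atTop (nhds 0) := by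
    refine l2_tendsto fun z => ?_
    have h7 := (exp_tendsto (A z) (v z)).const_sub
      (lin (NormedSpace.exp ((-Complex.I) • A z)) (v z))
    rw [sub_self] at h7
    rw [hR]
    exact h7
  have h8 : 0 < β * (c' - Real.exp K * c'') := mul_pos hβ (sub_pos.2 h3)
  obtain ⟨J, hJ⟩ := (h6.eventually_lt_const h8).exists
  have h9 := (good_partial hβ.le A hA h5 J).add
    (good_of_l2 (β := β) (c := c' - Real.exp K * c'') (sub_pos.2 h3).le hJ.le)
  have h10 : (fun z => (∑ j ∈ range J,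
      ((Nat.factorial j : ℂ)⁻¹ * (-Complex.I) ^ j) • lin (A z ^ j) (v z)) + R J z) =
      fun z => lin (NormedSpace.exp ((-Complex.I) • A z)) (v z) := by
    funext z
    rw [hR]
    beta_reduce
    abel
  rw [h10] at h9
  have h11 : Real.exp K * c'' + (c' - Real.exp K * c'') = c' := by ring
  rwa [h11] at h9

end plus

section near

variable {Z : Type} [Fintype Z] {β : ℝ}

omit [DecidableEq Y] in
theorem near_goodP {B : Z → Finset (Cube n)} (hβ : 0 ≤ β)
    (hB : ∀ x, ((univ.filter fun z => x ∈ B z).card : ℝ) ≤ β ^ 2) {c : ℝ}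
    {v : Z → Sp n Y} (hv : GoodP β c v) :
    l2 (fun z => nearP (B z) (v z)) ≤ 2 * (β * c) := by
  refine le_of_forall_pos_le_add fun ε hε => ?_
  have h1 : 0 < ε / (2 * β + 1) := by positivity
  have h2 := near_good hβ hB (hv (c + ε / (2 * β + 1)) (by linarith))
  have h3 : (2 * β + 1) * (ε / (2 * β + 1)) = ε := by field_simp
  nlinarith

theorem sq_integral_le {f : ℝ → ℝ} (hf : Continuous f) :
    (∫ s in (0 : ℝ)..1, f s) ^ 2 ≤ ∫ s in (0 : ℝ)..1, f s ^ 2 := by
  obtain ⟨a, ha⟩ : ∃ a : ℝ, a = ∫ s in (0 : ℝ)..1, f s := ⟨_, rfl⟩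
  have h1 : 0 ≤ ∫ s in (0 : ℝ)..1, (f s - a) ^ 2 :=
    intervalIntegral.integral_nonneg zero_le_one fun s _ => sq_nonneg _
  have h2 : ∫ s in (0 : ℝ)..1, (f s - a) ^ 2 = (∫ s in (0 : ℝ)..1, f s ^ 2) - a ^ 2 := by
    have h3 : (fun s => (f s - a) ^ 2) = fun s => f s ^ 2 - (2 * a * f s - a ^ 2) := by
      funext s
      ring
    have i1 : IntervalIntegrable (fun s => f s ^ 2) MeasureTheory.volume 0 1 :=
      (hf.pow 2).intervalIntegrable 0 1
    have i2 : IntervalIntegrable (fun s => 2 * a * f s) MeasureTheory.volume 0 1 :=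
      (continuous_const.mul hf).intervalIntegrable 0 1
    have i3 : IntervalIntegrable (fun _ : ℝ => a ^ 2) MeasureTheory.volume 0 1 :=
      continuous_const.intervalIntegrable 0 1
    rw [h3, intervalIntegral.integral_sub i1 (i2.sub i3), intervalIntegral.integral_sub i2 i3,
      intervalIntegral.integral_const_mul, ← ha, intervalIntegral.integral_const]
    rw [smul_eq_mul]
    ring
  rw [← ha]
  linarith

/-- Cauchy-Schwarz / Minkowski for integrals over the unit interval -/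
theorem l2_integral_le {f : Z → ℝ → ℝ} (hf : ∀ z, Continuous (f z)) (_h0 : ∀ z s, 0 ≤ f z s)
    {C : ℝ} (hC : ∀ s ∈ Set.Icc (0 : ℝ) 1, l2 (fun z => f z s) ≤ C) :
    l2 (fun z => ∫ s in (0 : ℝ)..1, f z s) ≤ C := by
  have hC0 : 0 ≤ C := (Real.sqrt_nonneg _).trans (hC 0 ⟨le_refl _, zero_le_one⟩)
  refine (Real.sqrt_le_left hC0).2 ?_
  have h1 : ∀ s ∈ Set.Icc (0 : ℝ) 1, ∑ z, f z s ^ 2 ≤ C ^ 2 := by
    intro s hs
    have h2 := (Real.sqrt_le_left hC0).1 (hC s hs)
    refine le_trans (le_of_eq ?_) h2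
    refine sum_congr rfl fun z _ => ?_
    rw [Real.norm_eq_abs, sq_abs]
  calc ∑ z, ‖∫ s in (0 : ℝ)..1, f z s‖ ^ 2 = ∑ z, (∫ s in (0 : ℝ)..1, f z s) ^ 2 :=
        sum_congr rfl fun z _ => by rw [Real.norm_eq_abs, sq_abs]
    _ ≤ ∑ z, ∫ s in (0 : ℝ)..1, f z s ^ 2 := sum_le_sum fun z _ => sq_integral_le (hf z)
    _ = ∫ s in (0 : ℝ)..1, ∑ z, f z s ^ 2 := by
        rw [intervalIntegral.integral_finsetSum]
        exact fun z _ => ((hf z).pow 2).intervalIntegrable 0 1
    _ ≤ ∫ _s in (0 : ℝ)..1, C ^ 2 := by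
        refine intervalIntegral.integral_mono_on zero_le_one
          (Continuous.intervalIntegrable ?_ 0 1) (continuous_const.intervalIntegrable 0 1) h1
        exact continuous_finsetSum _ fun z _ => (hf z).pow 2
    _ = C ^ 2 := by
        rw [intervalIntegral.integral_const, sub_zero, one_smul]

end near

end Pool.Agent.H73.AX
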